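import Pool.Agent.H82.LB.Targets
import Pool.Agent.H49.G.BAS

/-!
# Lemma B (MP_ee74d2_an, board lmb_modules): row BASB, the trivial bound
-/

set_option autoImplicit false

namespace Pool.Agent.H11.LB

open MeasureTheory Set
open Pool.Agent.H83.G
open Pool.Agent.H82.LB
open scoped ENNReal NNReal RealInnerProductSpace

theorem exists_entry {ι : Type} {K h : ℝ} {n : ℕ} {I : Finset ι} {c : ι → E 2} {u : ι → ℂ}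
    (hB : Brm K n h I c u) : ∃ k ∈ I, h ≤ ‖u k‖ := by
  have hv : ‖((1 : ℝ), (0 : E 2), (0 : ℝ))‖ = 1 := by
    rw [Prod.norm_def, Prod.norm_def]
    simp
  obtain ⟨k, hk, h1, _⟩ := hB (fun _ => ((1 : ℝ), (0 : E 2), (0 : ℝ))) (fun _ => hv)
  exact ⟨k, hk, h1⟩

theorem card_le {ι : Type} (I : Finset ι) (X : Finset (Z 2)) (f : ι → Z 2 → ℂ) (H C : ℝ)
    (e : ι → ℝ) (hcov : ∀ z ∈ X, ∃ k ∈ I, H ≤ ‖f k z‖)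
    (hk : ∀ k ∈ I, ∀ Y ⊆ X, (∀ z ∈ Y, H ≤ ‖f k z‖) → (Y.card : ℝ) * H ^ 2 ≤ C * e k) :
    (X.card : ℝ) * H ^ 2 ≤ C * ∑ k ∈ I, e k := by
  classical
  have h1 : X ⊆ I.biUnion fun k => X.filter fun z => H ≤ ‖f k z‖ := by
    intro z hz
    obtain ⟨k, hk, h⟩ := hcov z hz
    exact Finset.mem_biUnion.2 ⟨k, hk, Finset.mem_filter.2 ⟨hz, h⟩⟩
  have h2 : X.card ≤ ∑ k ∈ I, (X.filter fun z => H ≤ ‖f k z‖).card :=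
    (Finset.card_le_card h1).trans Finset.card_biUnion_le
  have h3 : (X.card : ℝ) ≤ ∑ k ∈ I, ((X.filter fun z => H ≤ ‖f k z‖).card : ℝ) := by
    exact_mod_cast h2
  calc (X.card : ℝ) * H ^ 2 ≤ (∑ k ∈ I, ((X.filter fun z => H ≤ ‖f k z‖).card : ℝ)) * H ^ 2 :=
        mul_le_mul_of_nonneg_right h3 (by positivity)
    _ = ∑ k ∈ I, ((X.filter fun z => H ≤ ‖f k z‖).card : ℝ) * H ^ 2 := Finset.sum_mul _ _ _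
    _ ≤ ∑ k ∈ I, C * e k := by
        refine Finset.sum_le_sum fun k hkI => ?_
        exact hk k hkI _ (Finset.filter_subset _ _) fun z hz => (Finset.mem_filter.1 hz).2
    _ = C * ∑ k ∈ I, e k := by rw [Finset.mul_sum]

theorem pf_BASB (hSPW : Pool.Agent.H83.G.T_SPW) (hPLN : Pool.Agent.H83.G.T_PLN) : T_BASB := by
  intro L
  obtain ⟨C0, hC0, hcnt⟩ := Pool.Agent.H49.G.BAS.count hSPW hPLN 2
  refine ⟨C0 + 1, by linarith, ?_⟩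
  intro κ R Λ K ρ M n hκ0 hκ hR hΛ ι I c A H G X hA hH hΛH hM hc hArr hX hB
  have h1 := card_le I X (fun k z => TF (G k) z) H C0 (fun k => ∫ ζ, ‖G k ζ‖ ^ 2)
    (fun z hz => exists_entry (hB z hz)) (fun k hk Y hY hYH => by
      exact hcnt L κ R A H (G k) Y hκ0 hκ hR hH (hArr k hk).1
        (fun z hz z' hz' hne => hX z (hY hz) z' (hY hz') hne) hYH)
  have hI : 0 ≤ ∑ k ∈ I, ∫ ζ, ‖G k ζ‖ ^ 2 :=
    Finset.sum_nonneg fun k _ => integral_nonneg fun ζ => by positivity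
  have hR0 : 0 < R := by linarith
  have hΛ0 : 0 < Λ := by linarith
  have h2 : H ≤ A * R / Λ := by
    rw [le_div_iff₀ hΛ0]
    linarith
  have hx : (0 : ℝ) ≤ 4 / 3 := by norm_num
  have h3 : H ^ (4 / 3 : ℝ) ≤ A ^ (4 / 3 : ℝ) * (R * R ^ (1 / 3 : ℝ)) * Λ ^ (-(4 / 3) : ℝ) := by
    calc H ^ (4 / 3 : ℝ) ≤ (A * R / Λ) ^ (4 / 3 : ℝ) := Real.rpow_le_rpow hH.le h2 hx
      _ = A ^ (4 / 3 : ℝ) * R ^ (4 / 3 : ℝ) * Λ ^ (-(4 / 3) : ℝ) := by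
          rw [Real.div_rpow (by positivity) hΛ0.le, Real.mul_rpow hA.le hR0.le,
            Real.rpow_neg hΛ0.le, div_eq_mul_inv]
      _ = A ^ (4 / 3 : ℝ) * (R * R ^ (1 / 3 : ℝ)) * Λ ^ (-(4 / 3) : ℝ) := by
          have h4 : (4 / 3 : ℝ) = 1 + 1 / 3 := by norm_num
          have h5 : R ^ (4 / 3 : ℝ) = R * R ^ (1 / 3 : ℝ) := by
            rw [h4, Real.rpow_add hR0, Real.rpow_one]
          rw [h5]
  have h6 : H ^ (10 / 3 : ℝ) = H ^ 2 * H ^ (4 / 3 : ℝ) := by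
    rw [← Real.rpow_natCast H 2, ← Real.rpow_add hH]
    norm_num
  have hH4 : 0 ≤ H ^ (4 / 3 : ℝ) := Real.rpow_nonneg hH.le _
  have hA4 : 0 ≤ A ^ (4 / 3 : ℝ) := Real.rpow_nonneg hA.le _
  have hR4 : 0 ≤ R ^ (1 / 3 : ℝ) := Real.rpow_nonneg hR0.le _
  have hΛ4 : 0 ≤ Λ ^ (-(4 / 3) : ℝ) := Real.rpow_nonneg hΛ0.le _
  have hprod : 0 ≤ A ^ (4 / 3 : ℝ) * (R * R ^ (1 / 3 : ℝ)) * Λ ^ (-(4 / 3) : ℝ) *
      ∑ k ∈ I, ∫ ζ, ‖G k ζ‖ ^ 2 := by positivity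
  rw [h6]
  calc (X.card : ℝ) * (H ^ 2 * H ^ (4 / 3 : ℝ)) = ((X.card : ℝ) * H ^ 2) * H ^ (4 / 3 : ℝ) := by
        ring
    _ ≤ (C0 * ∑ k ∈ I, ∫ ζ, ‖G k ζ‖ ^ 2) *
        (A ^ (4 / 3 : ℝ) * (R * R ^ (1 / 3 : ℝ)) * Λ ^ (-(4 / 3) : ℝ)) :=
        mul_le_mul h1 h3 hH4 (mul_nonneg hC0 hI)
    _ = C0 * (A ^ (4 / 3 : ℝ) * (R * R ^ (1 / 3 : ℝ)) * Λ ^ (-(4 / 3) : ℝ) *
        ∑ k ∈ I, ∫ ζ, ‖G k ζ‖ ^ 2) := by ring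
    _ ≤ (C0 + 1) * (A ^ (4 / 3 : ℝ) * (R * R ^ (1 / 3 : ℝ)) * Λ ^ (-(4 / 3) : ℝ) *
        ∑ k ∈ I, ∫ ζ, ‖G k ζ‖ ^ 2) := mul_le_mul_of_nonneg_right (by linarith) hprod
    _ = (C0 + 1) * R * Λ ^ (-(4 / 3) : ℝ) * A ^ (4 / 3 : ℝ) * R ^ (1 / 3 : ℝ) *
        ∑ k ∈ I, ∫ ζ, ‖G k ζ‖ ^ 2 := by ring

end Pool.Agent.H11.LB
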